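import Pool.Agent.Work.MP_6dc561_nt.BC.Points
import Pool.Agent.Work.MP_6dc561_nt.AA.Final

/-!
# Sums over the primes of a quadratic field
-/

set_option autoImplicit false

open NumberField IsDedekindDomain Ideal Polynomial Finset
open Pool.Agent.Work.MP_6dc561_nt.AA (goodQ goodUpToQ aQ bQ avgQ gpr TT WW sum_goodUpToQ
  chi_eq_legendre)

namespace Pool.Agent.Work.MP_6dc561_nt.BC

variable {K : Type*} [Field K] [NumberField K]

/-- an ideal above `p` as a point of the height one spectrum -/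
def toH {p : ℕ} (hp : p.Prime) (P : (PZ p).primesOver (𝓞 K)) : HeightOneSpectrum (𝓞 K) :=
  ⟨P.1, P.2.1, ne_bot_of_mem_primesOver (PZ_ne_bot hp) P.2⟩

theorem toH_injective {p : ℕ} (hp : p.Prime) :
    Function.Injective (toH hp : (PZ p).primesOver (𝓞 K) → HeightOneSpectrum (𝓞 K)) := by
  intro P Q h
  have : (toH hp P).asIdeal = (toH hp Q).asIdeal := by rw [h]
  exact Subtype.ext this

theorem ch_toH {p : ℕ} (hp : p.Prime) (P : (PZ p).primesOver (𝓞 K)) : ch (toH hp P) = p := by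
  symm
  apply eq_ch hp
  have h1 : (p : ℤ) ∈ PZ p := mem_PZ.2 dvd_rfl
  have hover : P.1.LiesOver (PZ p) := P.2.2
  rw [hover.over, Ideal.under_def, Ideal.mem_comap, map_natCast] at h1
  exact h1

theorem exists_toH {p : ℕ} (hp : p.Prime) {w : HeightOneSpectrum (𝓞 K)} (hw : ch w = p) :
    ∃ P : (PZ p).primesOver (𝓞 K), toH hp P = w := by
  subst hw
  exact ⟨⟨w.asIdeal, w.isPrime, liesOver w⟩, rfl⟩

theorem ch_le_nrm (w : HeightOneSpectrum (𝓞 K)) : ch w ≤ nrm w := by
  obtain ⟨h1, _, n, hn, h3⟩ := ch_spec w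
  unfold nrm
  rw [h3]
  exact Nat.le_self_pow hn.ne' _

theorem goodUpTo_finite (f : (𝓞 K)[X]) (d : 𝓞 K) (x : ℕ) : (goodUpTo f d x).Finite := by
  have h1 : {I : Ideal (𝓞 K) | absNorm I ≤ x}.Finite := Ideal.finite_setOfPred_absNorm_le x
  refine Set.Finite.of_finite_image (f := fun w : HeightOneSpectrum (𝓞 K) => w.asIdeal)
    (h1.subset ?_) ?_
  · rintro I ⟨w, hw, rfl⟩
    have h2 : (nrm w : ℝ) ≤ x := hw.2
    have h3 : nrm w ≤ x := by exact_mod_cast h2
    exact h3
  · intro a _ b _ hab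
    exact HeightOneSpectrum.ext hab

/-- the conjugation of a quadratic field -/
theorem exists_conj (h2 : Module.finrank ℚ K = 2) {d : ℤ} (hd : ¬ IsSquare (d : ℚ)) {r : K}
    (hr : r ^ 2 = (d : K)) :
    ∃ (θ : 𝓞 K) (σ : 𝓞 K →ₐ[ℤ] 𝓞 K), θ ^ 2 = algebraMap ℤ (𝓞 K) d ∧ σ θ = -θ := by
  have hq : Algebra.IsQuadraticExtension ℚ K := ⟨h2⟩
  set p : ℚ[X] := X ^ 2 - C (d : ℚ) with hp
  have hdeg : p.natDegree = 2 := natDegree_X_pow_sub_C
  have hmon : p.Monic := monic_X_pow_sub_C _ two_ne_zero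
  have hirr : Irreducible p := by
    rw [Polynomial.irreducible_iff_roots_eq_zero_of_degree_le_three (by rw [hdeg])
      (by rw [hdeg]; norm_num)]
    rw [Multiset.eq_zero_iff_forall_notMem]
    intro a ha
    rw [mem_roots', IsRoot.def, hp, eval_sub, eval_pow, eval_X, eval_C] at ha
    apply hd
    exact ⟨a, by linear_combination -ha.2⟩
  have hmin : ∀ y : K, y ^ 2 = (d : K) → minpoly ℚ y = p := by
    intro y hy
    symm
    apply minpoly.eq_of_irreducible_of_monic hirr _ hmon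
    rw [hp, map_sub, map_pow, aeval_X, aeval_C, hy]
    simp
  have hconj : IsConjRoot ℚ (-r) r := by
    change minpoly ℚ (-r) = minpoly ℚ r
    rw [hmin r hr, hmin (-r) (by rw [neg_sq, hr])]
  obtain ⟨τ, hτ⟩ := isConjRoot_iff_exists_algEquiv.1 hconj
  have hint : IsIntegral ℤ r := by
    apply IsIntegral.of_pow (n := 2) (by norm_num)
    rw [hr]
    exact isIntegral_algebraMap (R := ℤ) (x := d)
  let θ : 𝓞 K := ⟨r, hint⟩
  have hθ : θ ^ 2 = algebraMap ℤ (𝓞 K) d := by
    apply NumberField.RingOfIntegers.ext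
    change r ^ 2 = _
    rw [hr]
    simp
  let σ : 𝓞 K →ₐ[ℤ] 𝓞 K :=
    { NumberField.RingOfIntegers.mapRingHom (τ : K →+* K) with
      commutes' := by
        intro a
        apply NumberField.RingOfIntegers.ext
        simp }
  refine ⟨θ, σ, hθ, ?_⟩
  apply NumberField.RingOfIntegers.ext
  exact hτ

theorem primesOver_finite {p : ℕ} : Finite ((PZ p).primesOver (𝓞 K)) :=
  (Algebra.QuasiFinite.finite_primesOver (PZ p)).to_subtype

/-- the contribution of one rational prime -/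
theorem fiber_bound (h2 : Module.finrank ℚ K = 2) {d : ℤ} (hd : ¬ IsSquare (d : ℚ)) {r : K}
    (hr : r ^ 2 = (d : K)) (f : ℤ[X]) (x : ℕ) (A : Finset (HeightOneSpectrum (𝓞 K)))
    (hA : ∀ w, w ∈ A ↔ w ∈ goodUpTo (f.map (Int.castRingHom (𝓞 K))) 1 x)
    {M : ℝ} (hM : 0 ≤ M) (H : HeightOneSpectrum (𝓞 K) → ℝ) (g : ℕ → ℝ)
    (hH : ∀ w, |H w| ≤ M) (hg : ∀ p, |g p| ≤ M)
    (hHg : ∀ w : HeightOneSpectrum (𝓞 K), absNorm w.asIdeal = ch w → H w = g (ch w))
    {p : ℕ} (hp : p ∈ goodUpToQ f 1 x) [DecidablePred fun w : HeightOneSpectrum (𝓞 K) => ch w = p] :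
    |∑ w ∈ A with ch w = p, H w - (1 + AA.chi d p) * g p| ≤
      2 * M * (if p ^ 2 ≤ x then 1 else 0) + 3 * M * (if (p : ℤ) ∣ d then 1 else 0) := by
  classical
  have hp' := hp
  unfold AA.goodUpToQ at hp'
  rw [mem_filter, Finset.mem_Icc] at hp'
  obtain ⟨⟨_, hpx⟩, hgood⟩ := hp'
  have hpp : p.Prime := hgood.1
  have hp2 : p ≠ 2 := hgood.2.1
  have hfp : Fact p.Prime := ⟨hpp⟩
  obtain ⟨θ, σ, hθ, hσ⟩ := exists_conj h2 hd hr
  have hfin := primesOver_finite (K := K) (p := p)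
  let _ : Fintype ((PZ p).primesOver (𝓞 K)) := Fintype.ofFinite _
  have hsub : A.filter (fun w => ch w = p) ⊆ Finset.univ.image (toH (K := K) hpp) := by
    intro w hw
    rw [mem_filter] at hw
    obtain ⟨P, hP⟩ := exists_toH hpp hw.2
    rw [mem_image]
    exact ⟨P, mem_univ _, hP⟩
  have hcard : (A.filter (fun w => ch w = p)).card ≤ 2 := by
    refine (card_le_card hsub).trans (card_image_le.trans ?_)
    rw [card_univ]
    exact card_le h2 hpp
  have hsum : |∑ w ∈ A with ch w = p, H w| ≤ 2 * M := by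
    calc |∑ w ∈ A with ch w = p, H w| ≤ ∑ w ∈ A with ch w = p, |H w| := abs_sum_le_sum_abs _ _
      _ ≤ ∑ w ∈ A with ch w = p, M := sum_le_sum fun w _ => hH w
      _ = (A.filter (fun w => ch w = p)).card * M := by rw [sum_const, nsmul_eq_mul]
      _ ≤ 2 * M := by
          have : ((A.filter (fun w => ch w = p)).card : ℝ) ≤ 2 := by exact_mod_cast hcard
          exact mul_le_mul_of_nonneg_right this hM
  have hchi := chi_eq_legendre hp2 d
  by_cases hdvd : (p : ℤ) ∣ d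
  · -- ramified
    rw [if_pos hdvd]
    have h0 : legendreSym p d = 0 := by
      rw [legendreSym.eq_zero_iff, ZMod.intCast_zmod_eq_zero_iff_dvd]
      exact hdvd
    rw [hchi, h0]
    have h3 := abs_sub (∑ w ∈ A with ch w = p, H w) ((1 + ((0 : ℤ) : ℝ)) * g p)
    have h4 : |(1 + ((0 : ℤ) : ℝ)) * g p| ≤ M := by
      rw [Int.cast_zero, add_zero, one_mul]; exact hg p
    have h5 : 0 ≤ 2 * M * (if p ^ 2 ≤ x then (1 : ℝ) else 0) := by positivity
    linarith
  · have hd0 : (d : ZMod p) ≠ 0 := by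
      rwa [Ne, ZMod.intCast_zmod_eq_zero_iff_dvd]
    rw [if_neg hdvd, mul_zero, add_zero]
    by_cases hsq : IsSquare (d : ZMod p)
    · -- split
      have h1 : legendreSym p d = 1 := (legendreSym.eq_one_iff p hd0).2 hsq
      obtain ⟨t, ht⟩ := hsq
      have ht' : (p : ℤ) ∣ d - (t.val : ℤ) ^ 2 := by
        rw [← ZMod.intCast_zmod_eq_zero_iff_dvd]
        push_cast
        rw [ht, ZMod.natCast_val, ZMod.cast_id]
        ring
      obtain ⟨w₁, w₂, hne⟩ := exists_two d θ hθ σ hσ hpp hp2 hdvd _ ht'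
      obtain ⟨hc2, hf1⟩ := f_eq_one h2 hpp w₁ w₂ hne
      have hnorm : ∀ P : (PZ p).primesOver (𝓞 K), absNorm (toH hpp P).asIdeal = p := by
        intro P
        have := absNorm_over hpp P
        rw [hf1 P, pow_one] at this
        exact this
      have himg : A.filter (fun w => ch w = p) = Finset.univ.image (toH (K := K) hpp) := by
        apply Finset.Subset.antisymm hsub
        intro w hw
        rw [mem_image] at hw
        obtain ⟨P, _, rfl⟩ := hw
        rw [mem_filter, hA]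
        refine ⟨⟨?_, ?_⟩, ch_toH hpp P⟩
        · rw [good_iff_ch, ch_toH]; exact hgood
        · unfold nrm
          rw [hnorm P]
          exact_mod_cast hpx
      rw [himg, sum_image (fun a _ b _ hab => toH_injective hpp hab)]
      have hterm : ∀ P : (PZ p).primesOver (𝓞 K), H (toH hpp P) = g p := by
        intro P
        have := hHg (toH hpp P) (by rw [hnorm P, ch_toH])
        rwa [ch_toH] at this
      rw [sum_congr rfl (fun P _ => hterm P), sum_const, card_univ, hc2, hchi, h1]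
      have : (2 : ℕ) • g p - (1 + ((1 : ℤ) : ℝ)) * g p = 0 := by
        rw [nsmul_eq_mul]; push_cast; ring
      rw [this, abs_zero]
      positivity
    · -- inert
      have h1 : legendreSym p d = -1 := (legendreSym.eq_neg_one_iff p).2 hsq
      rw [hchi, h1]
      have h3 : (1 + ((-1 : ℤ) : ℝ)) * g p = 0 := by push_cast; ring
      rw [h3, sub_zero]
      by_cases hx : p ^ 2 ≤ x
      · rw [if_pos hx, mul_one]; exact hsum
      · rw [if_neg hx, mul_zero]
        have hempty : A.filter (fun w => ch w = p) = ∅ := by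
          rw [filter_eq_empty_iff]
          intro w hw hwp
          rw [hA] at hw
          have h4 : (nrm w : ℝ) ≤ x := hw.2
          have h5 : nrm w ≤ x := by exact_mod_cast h4
          obtain ⟨P, hP⟩ := exists_toH hpp hwp
          have h6 := absNorm_over hpp P
          have h7 := two_le_f d θ hθ hpp hsq P
          have h8 : p ^ 2 ≤ absNorm P.1 := by
            rw [h6]; exact Nat.pow_le_pow_right hpp.pos h7
          have h9 : nrm w = absNorm P.1 := by
            rw [← hP]; rfl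
          omega
        rw [hempty, sum_empty, abs_zero]

/-- the number of squares up to `x` -/
theorem card_sq_le (f : ℤ[X]) (x : ℕ) :
    ∑ p ∈ goodUpToQ f 1 x, (if p ^ 2 ≤ x then (1 : ℝ) else 0) ≤ Real.sqrt x := by
  classical
  rw [← sum_filter, sum_const, nsmul_eq_mul, mul_one]
  have h1 : (goodUpToQ f 1 x).filter (fun p => p ^ 2 ≤ x) ⊆ Finset.Icc 1 (Nat.sqrt x) := by
    intro p hp
    unfold AA.goodUpToQ at hp
    rw [mem_filter, mem_filter, Finset.mem_Icc] at hp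
    rw [Finset.mem_Icc]
    exact ⟨hp.1.1.1, Nat.le_sqrt'.2 hp.2⟩
  have h2 := card_le_card h1
  rw [Nat.card_Icc, Nat.add_sub_cancel] at h2
  calc (((goodUpToQ f 1 x).filter (fun p => p ^ 2 ≤ x)).card : ℝ) ≤ Nat.sqrt x := by
        exact_mod_cast h2
    _ ≤ Real.sqrt x := Real.nat_sqrt_le_real_sqrt

/-- sums over the primes of the quadratic field -/
theorem sum_bound (h2 : Module.finrank ℚ K = 2) {d : ℤ} (hd : ¬ IsSquare (d : ℚ)) {r : K}
    (hr : r ^ 2 = (d : K)) (f : ℤ[X]) (hinf : (Set.ofPred (· ∈ goodQ f 1)).Infinite) (x : ℕ)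
    (A : Finset (HeightOneSpectrum (𝓞 K)))
    (hA : ∀ w, w ∈ A ↔ w ∈ goodUpTo (f.map (Int.castRingHom (𝓞 K))) 1 x)
    {M : ℝ} (hM : 0 ≤ M) (H : HeightOneSpectrum (𝓞 K) → ℝ) (g : ℕ → ℝ)
    (hH : ∀ w, |H w| ≤ M) (hg : ∀ p, |g p| ≤ M)
    (hHg : ∀ w : HeightOneSpectrum (𝓞 K), absNorm w.asIdeal = ch w → H w = g (ch w)) :
    |∑ w ∈ A, H w - (∑ p ∈ goodUpToQ f 1 x, g p +
      TT (gpr f) g (goodUpToQ f 1 x).card d)| ≤
      2 * M * Real.sqrt x + 3 * M * (WW (gpr f) (goodUpToQ f 1 x).card d : ℝ) := by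
  classical
  have hmaps : ∀ w ∈ A, ch w ∈ goodUpToQ f 1 x := by
    intro w hw
    rw [hA] at hw
    have h1 := (good_iff_ch f w).1 hw.1
    have h4 : (nrm w : ℝ) ≤ x := hw.2
    have h5 : nrm w ≤ x := by exact_mod_cast h4
    unfold AA.goodUpToQ
    rw [mem_filter, Finset.mem_Icc]
    exact ⟨⟨h1.1.one_lt.le, (ch_le_nrm w).trans h5⟩, h1⟩
  rw [← sum_fiberwise_of_maps_to hmaps]
  have hTT : ∑ p ∈ goodUpToQ f 1 x, g p + TT (gpr f) g (goodUpToQ f 1 x).card d =
      ∑ p ∈ goodUpToQ f 1 x, (1 + AA.chi d p) * g p := by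
    have h1 : TT (gpr f) g (goodUpToQ f 1 x).card d =
        ∑ p ∈ goodUpToQ f 1 x, g p * AA.chi d p := by
      unfold AA.TT
      rw [← sum_goodUpToQ f hinf x (fun p => g p * AA.chi d p)]
    rw [h1, ← sum_add_distrib]
    exact sum_congr rfl fun p _ => by ring
  rw [hTT, ← sum_sub_distrib]
  have hW : (WW (gpr f) (goodUpToQ f 1 x).card d : ℝ) =
      ∑ p ∈ goodUpToQ f 1 x, (if (p : ℤ) ∣ d then (1 : ℝ) else 0) := by
    unfold AA.WW
    rw [card_filter]
    push_cast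
    rw [sum_goodUpToQ f hinf x (fun p : ℕ => if (p : ℤ) ∣ d then (1 : ℝ) else 0)]
  calc |∑ p ∈ goodUpToQ f 1 x, (∑ w ∈ A with ch w = p, H w - (1 + AA.chi d p) * g p)|
      ≤ ∑ p ∈ goodUpToQ f 1 x, |∑ w ∈ A with ch w = p, H w - (1 + AA.chi d p) * g p| :=
        abs_sum_le_sum_abs _ _
    _ ≤ ∑ p ∈ goodUpToQ f 1 x, (2 * M * (if p ^ 2 ≤ x then (1 : ℝ) else 0) +
          3 * M * (if (p : ℤ) ∣ d then (1 : ℝ) else 0)) :=
        sum_le_sum fun p hp => fiber_bound h2 hd hr f x A hA hM H g hH hg hHg hp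
    _ = 2 * M * ∑ p ∈ goodUpToQ f 1 x, (if p ^ 2 ≤ x then (1 : ℝ) else 0) +
          3 * M * ∑ p ∈ goodUpToQ f 1 x, (if (p : ℤ) ∣ d then (1 : ℝ) else 0) := by
        rw [sum_add_distrib, mul_sum, mul_sum]
    _ ≤ _ := by
        rw [← hW]
        have := mul_le_mul_of_nonneg_left (card_sq_le f x) (by linarith : 0 ≤ 2 * M)
        linarith

end Pool.Agent.Work.MP_6dc561_nt.BC
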