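import Pool.Agent.Work.MP_6dc561_nt.BC.Sum

/-!
# Base change to almost all quadratic fields
-/

set_option autoImplicit false

open NumberField IsDedekindDomain Ideal Polynomial Finset
open Pool.Agent.Work.MP_6dc561_nt.AA (goodQ goodUpToQ aQ bQ avgQ gpr TT WW sum_goodUpToQ
  goodQ_infinite primeSeq_gpr card_good_lower exceptional_set)

namespace Pool.Agent.Work.MP_6dc561_nt.BC

theorem not_isSquare {d : ℤ} (hsq : Squarefree d) (hd : d ≠ 1) : ¬ IsSquare (d : ℚ) := by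
  rw [Rat.isSquare_intCast_iff]
  rintro ⟨k, hk⟩
  have h1 : IsUnit k := hsq k ⟨1, by rw [mul_one]; exact hk⟩
  apply hd
  rcases Int.isUnit_iff.1 h1 with h | h
  · rw [hk, h]; norm_num
  · rw [hk, h]; norm_num

/-- the comparison of the two averages -/
theorem avg_compare {K : Type*} [Field K] [NumberField K] (h2 : Module.finrank ℚ K = 2) {d : ℤ}
    (hd : ¬ IsSquare (d : ℚ)) {r : K} (hr : r ^ 2 = (d : K)) (f : ℤ[X])
    (hinf : (Set.ofPred (· ∈ goodQ f 1)).Infinite) {G : ℝ → ℝ → ℝ} {L : ℝ} (hL : 1 ≤ L)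
    (hG : ∀ x y, |G x y| ≤ L) (x : ℕ) {η : ℝ} (hη : 0 ≤ η) (hη12 : η ≤ 1 / 12)
    (hN : 0 < (goodUpToQ f 1 x).card)
    (hT : |TT (gpr f) (fun p => G (aQ f 1 p / Real.sqrt p) (bQ f 1 p / p))
      (goodUpToQ f 1 x).card d| ≤ η * (goodUpToQ f 1 x).card)
    (hT1 : |TT (gpr f) (fun _ => 1) (goodUpToQ f 1 x).card d| ≤ η * (goodUpToQ f 1 x).card)
    (hW : (WW (gpr f) (goodUpToQ f 1 x).card d : ℝ) ≤ η * (goodUpToQ f 1 x).card)
    (hx : Real.sqrt x ≤ η * (goodUpToQ f 1 x).card) :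
    |frobAverage (f.map (Int.castRingHom (𝓞 K))) 1 G x - avgQ f 1 G x| ≤ 24 * L * η := by
  classical
  have hL0 : 0 ≤ L := by linarith
  set N : ℝ := ((goodUpToQ f 1 x).card : ℝ) with hNdef
  have hN0 : 0 < N := by rw [hNdef]; exact_mod_cast hN
  have hfin := goodUpTo_finite (f.map (Int.castRingHom (𝓞 K))) 1 x
  set A : Finset (HeightOneSpectrum (𝓞 K)) := hfin.toFinset with hA
  have hmem : ∀ w, w ∈ A ↔ w ∈ goodUpTo (f.map (Int.castRingHom (𝓞 K))) 1 x := by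
    intro w
    rw [hA, Set.Finite.mem_toFinset]
  set H : HeightOneSpectrum (𝓞 K) → ℝ := fun v =>
    G (frobTrace (f.map (Int.castRingHom (𝓞 K))) 1 v / Real.sqrt (nrm v))
      (frobSecond (f.map (Int.castRingHom (𝓞 K))) 1 v / nrm v) with hH
  set g : ℕ → ℝ := fun p => G (aQ f 1 p / Real.sqrt p) (bQ f 1 p / p) with hg
  have hHg : ∀ w : HeightOneSpectrum (𝓞 K), absNorm w.asIdeal = ch w → H w = g (ch w) := by
    intro w hw
    obtain ⟨e1, e2⟩ := frob_degree_one f w hw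
    simp only [hH, hg]
    rw [e1, e2]
    unfold nrm
    rw [hw]
  have b1 := sum_bound h2 hd hr f hinf x A hmem hL0 H g (fun w => hG _ _) (fun p => hG _ _) hHg
  have b2 := sum_bound h2 hd hr f hinf x A hmem zero_le_one (fun _ => 1) (fun _ => 1)
    (fun w => by rw [abs_one]) (fun p => by rw [abs_one]) (fun _ _ => rfl)
  have hcardN : ∑ p ∈ goodUpToQ f 1 x, (1 : ℝ) = N := by
    rw [sum_const, nsmul_eq_mul, mul_one]
  have hcardA : ∑ w ∈ A, (1 : ℝ) = A.card := by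
    rw [sum_const, nsmul_eq_mul, mul_one]
  rw [hcardN, hcardA] at b2
  set S : ℝ := ∑ p ∈ goodUpToQ f 1 x, g p with hS
  set SK : ℝ := ∑ w ∈ A, H w with hSK
  set NK : ℝ := (A.card : ℝ) with hNK
  have hSN : |S| ≤ L * N := by
    calc |S| ≤ ∑ p ∈ goodUpToQ f 1 x, |g p| := abs_sum_le_sum_abs _ _
      _ ≤ ∑ p ∈ goodUpToQ f 1 x, L := sum_le_sum fun p _ => hG _ _
      _ = L * N := by rw [sum_const, nsmul_eq_mul, mul_comm]
  have c1 : |SK - S| ≤ 6 * L * η * N := by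
    have e1 : SK - S = (SK - (S + TT (gpr f) g (goodUpToQ f 1 x).card d)) +
        TT (gpr f) g (goodUpToQ f 1 x).card d := by ring
    rw [e1]
    refine (abs_add_le _ _).trans ?_
    have e2 : 2 * L * Real.sqrt x ≤ 2 * L * (η * N) := mul_le_mul_of_nonneg_left hx (by positivity)
    have e3 : 3 * L * (WW (gpr f) (goodUpToQ f 1 x).card d : ℝ) ≤ 3 * L * (η * N) :=
      mul_le_mul_of_nonneg_left hW (by positivity)
    have e4 : η * N ≤ L * (η * N) := le_mul_of_one_le_left (by positivity) hL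
    linarith
  have c2 : |NK - N| ≤ 6 * η * N := by
    have e1 : NK - N = (NK - (N + TT (gpr f) (fun _ => 1) (goodUpToQ f 1 x).card d)) +
        TT (gpr f) (fun _ => 1) (goodUpToQ f 1 x).card d := by ring
    rw [e1]
    refine (abs_add_le _ _).trans ?_
    linarith
  have hNK2 : N / 2 ≤ NK := by
    have := (abs_le.1 c2).1
    nlinarith
  have hNK0 : 0 < NK := by linarith
  have havg : frobAverage (f.map (Int.castRingHom (𝓞 K))) 1 G x = SK / NK := by
    unfold frobAverage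
    rw [finsum_mem_eq_finite_toFinset_sum _ hfin, Set.ncard_eq_toFinset_card _ hfin]
  have havgQ : avgQ f 1 G x = S / N := rfl
  rw [havg, havgQ]
  have hdec : SK / NK - S / N = ((SK - S) - S * ((NK - N) / N)) / NK := by
    field_simp
    ring
  rw [hdec, abs_div, abs_of_pos hNK0, div_le_iff₀ hNK0]
  have c3 : |S * ((NK - N) / N)| ≤ L * (6 * η * N) := by
    rw [abs_mul, abs_div, abs_of_pos hN0]
    calc |S| * (|NK - N| / N) ≤ (L * N) * (6 * η * N / N) :=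
          mul_le_mul hSN (div_le_div_of_nonneg_right c2 hN0.le) (by positivity) (by positivity)
      _ = L * (6 * η * N) := by field_simp
  calc |SK - S - S * ((NK - N) / N)| ≤ |SK - S| + |S * ((NK - N) / N)| := abs_sub _ _
    _ ≤ 6 * L * η * N + L * (6 * η * N) := add_le_add c1 c3
    _ = 24 * L * η * (N / 2) := by ring
    _ ≤ 24 * L * η * NK := mul_le_mul_of_nonneg_left hNK2 (by positivity)

/-- the main theorem -/
theorem base_change_main (f : ℤ[X]) (hdeg : f.natDegree = 5 ∨ f.natDegree = 6)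
    (hsep : (f.map (Int.castRingHom ℚ)).Separable) (M ε : ℝ) (hε : 0 < ε) :
    ∃ C : ℝ, ∀ G : ℝ → ℝ → ℝ, (∀ x y, |G x y| ≤ M) → ∀ D X : ℕ, 1 ≤ X → ∀ Y : ℝ, 1 ≤ Y →
      ({d : ℤ | |d| ≤ D ∧ Squarefree d ∧ d ≠ 1 ∧
        ∃ (K : Type) (_ : Field K) (_ : NumberField K),
          Module.finrank ℚ K = 2 ∧ (∃ r : K, r ^ 2 = (d : K)) ∧
          ∃ x : ℕ, X ≤ x ∧ (x : ℝ) ≤ Real.exp Y ∧
            ε < |frobAverage (f.map (Int.castRingHom (𝓞 K))) 1 G x - avgQ f 1 G x|}.ncard : ℝ) ≤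
        C * (D / Real.sqrt X + (D : ℝ) ^ (3 / 5 : ℝ) + Y) := by
  classical
  have hinf := goodQ_infinite f hdeg hsep
  obtain ⟨C₀, hC₀⟩ := primeSeq_gpr f hdeg hsep
  have hC₀p := hC₀.pos
  set L : ℝ := |M| + 1 with hL
  have hL1 : 1 ≤ L := by rw [hL]; have := abs_nonneg M; linarith
  have hL0 : 0 ≤ L := by linarith
  set η : ℝ := min (1 / 12) (ε / (24 * L)) with hη
  have hη0 : 0 < η := lt_min (by norm_num) (by positivity)
  have hη2 : η ≤ 1 / 12 := min_le_left _ _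
  have hηε : 24 * L * η ≤ ε := by
    have : η ≤ ε / (24 * L) := min_le_right _ _
    rw [le_div_iff₀ (by positivity)] at this
    linarith
  obtain ⟨B, hB0, hB⟩ := exceptional_set f hdeg hsep hL0 hη0
  obtain ⟨x₁, hx₁⟩ := exists_nat_ge ((6 * C₀ / η) ^ 6)
  refine ⟨2 * B + 3 * Real.sqrt x₁ + 3, fun G hG D X hX Y hY => ?_⟩
  have hGL : ∀ x y, |G x y| ≤ L := fun x y => (hG x y).trans
    ((le_abs_self M).trans (by rw [hL]; linarith))
  have hXr : (1 : ℝ) ≤ X := by exact_mod_cast hX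
  have hX0 : (0 : ℝ) < X := by linarith
  have hsX : 0 < Real.sqrt X := Real.sqrt_pos.2 hX0
  have hD0 : (0 : ℝ) ≤ D := Nat.cast_nonneg D
  have hD35 : 0 ≤ (D : ℝ) ^ (3 / 5 : ℝ) := Real.rpow_nonneg hD0 _
  have hY0 : 0 ≤ Y := by linarith
  have hsum0 : 0 ≤ (D : ℝ) / Real.sqrt X + (D : ℝ) ^ (3 / 5 : ℝ) + Y := by positivity
  have hDX0 : 0 ≤ (D : ℝ) / Real.sqrt X := by positivity
  set T : ℝ := (D : ℝ) / Real.sqrt X + (D : ℝ) ^ (3 / 5 : ℝ) + Y with hTdef
  by_cases hXx : X < x₁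
  · -- trivial bound
    have hsub : {d : ℤ | |d| ≤ D ∧ Squarefree d ∧ d ≠ 1 ∧
        ∃ (K : Type) (_ : Field K) (_ : NumberField K),
          Module.finrank ℚ K = 2 ∧ (∃ r : K, r ^ 2 = (d : K)) ∧
          ∃ x : ℕ, X ≤ x ∧ (x : ℝ) ≤ Real.exp Y ∧
            ε < |frobAverage (f.map (Int.castRingHom (𝓞 K))) 1 G x - avgQ f 1 G x|} ⊆
        ((Finset.Icc (-(D : ℤ)) D : Finset ℤ) : Set ℤ) := by
      intro d hd
      rw [Finset.coe_Icc, Set.mem_Icc, ← abs_le]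
      exact hd.1
    have h3 := Set.ncard_le_ncard hsub (Finset.finite_toSet _)
    rw [Set.ncard_coe_finset, Int.card_Icc] at h3
    have h4 : ((D : ℤ) + 1 - -(D : ℤ)).toNat = 2 * D + 1 := by omega
    rw [h4] at h3
    have h5 : Real.sqrt X ≤ Real.sqrt x₁ := Real.sqrt_le_sqrt (by exact_mod_cast hXx.le)
    have h6 : (D : ℝ) ≤ Real.sqrt x₁ * (D / Real.sqrt X) := by
      rw [mul_div_assoc', le_div_iff₀ hsX]
      nlinarith
    calc _ ≤ ((2 * D + 1 : ℕ) : ℝ) := by exact_mod_cast h3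
      _ = 2 * D + 1 := by push_cast; ring
      _ ≤ 2 * (Real.sqrt x₁ * (D / Real.sqrt X)) + Y := by linarith
      _ ≤ (3 * Real.sqrt x₁) * T + 3 * T := by
          have e1 : Real.sqrt x₁ * (D / Real.sqrt X) ≤ Real.sqrt x₁ * T := by
            apply mul_le_mul_of_nonneg_left _ (Real.sqrt_nonneg _)
            rw [hTdef]; linarith
          have e2 : Y ≤ T := by rw [hTdef]; linarith
          have e3 : 0 ≤ Real.sqrt x₁ * T := mul_nonneg (Real.sqrt_nonneg _) hsum0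
          linarith
      _ ≤ (2 * B + 3 * Real.sqrt x₁ + 3) * T := by
          have : 0 ≤ B * T := mul_nonneg hB0 hsum0
          linarith
  push Not at hXx
  obtain ⟨E₁, hE₁, hE₁'⟩ := hB (fun p => G (aQ f 1 p / Real.sqrt p) (bQ f 1 p / p))
    (fun p => hGL _ _) D X hX Y hY
  obtain ⟨E₂, hE₂, hE₂'⟩ := hB (fun _ => 1) (fun p => by rw [abs_one]; exact hL1) D X hX Y hY
  have hsub : {d : ℤ | |d| ≤ D ∧ Squarefree d ∧ d ≠ 1 ∧
        ∃ (K : Type) (_ : Field K) (_ : NumberField K),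
          Module.finrank ℚ K = 2 ∧ (∃ r : K, r ^ 2 = (d : K)) ∧
          ∃ x : ℕ, X ≤ x ∧ (x : ℝ) ≤ Real.exp Y ∧
            ε < |frobAverage (f.map (Int.castRingHom (𝓞 K))) 1 G x - avgQ f 1 G x|} ⊆
        ((E₁ ∪ E₂ : Finset ℤ) : Set ℤ) := by
    rintro d ⟨hd1, hd2, hd3, K, _, _, h2, ⟨r, hr⟩, x, hx1, hx2, hx3⟩
    by_contra hd
    rw [mem_coe, mem_union, not_or] at hd
    obtain ⟨a1, a2, a3⟩ := hE₁' d hd1 hd2 hd.1 x hx1 hx2
    obtain ⟨b1, b2, b3⟩ := hE₂' d hd1 hd2 hd.2 x hx1 hx2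
    have hlow := card_good_lower f hinf hC₀ x a1
    set N : ℝ := ((goodUpToQ f 1 x).card : ℝ) with hN
    have hxs : Real.sqrt x ≤ η * N := by
      have hxr : (1 : ℝ) ≤ x := by exact_mod_cast hX.trans hx1
      have hx0 : (0 : ℝ) < x := by linarith
      have hx₁x : (6 * C₀ / η) ^ 6 ≤ x := hx₁.trans (by exact_mod_cast hXx.trans hx1)
      have h5 : 6 * C₀ / η ≤ (x : ℝ) ^ (1 / 6 : ℝ) := by
        have h6 : ((x : ℝ) ^ (1 / 6 : ℝ)) ^ 6 = x := by
          rw [← Real.rpow_natCast, ← Real.rpow_mul hx0.le]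
          norm_num
        rw [← h6] at hx₁x
        exact le_of_pow_le_pow_left₀ (by norm_num) (Real.rpow_nonneg hx0.le _) hx₁x
      rw [div_le_iff₀ hη0] at h5
      have h7 : (x : ℝ) ^ (2 / 3 : ℝ) = Real.sqrt x * (x : ℝ) ^ (1 / 6 : ℝ) := by
        rw [Real.sqrt_eq_rpow, ← Real.rpow_add hx0]
        norm_num
      rw [h7] at hlow
      have h8 : Real.sqrt x * (6 * C₀) ≤ (η * N) * (6 * C₀) := by
        calc Real.sqrt x * (6 * C₀) ≤ Real.sqrt x * ((x : ℝ) ^ (1 / 6 : ℝ) * η) :=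
              mul_le_mul_of_nonneg_left h5 (Real.sqrt_nonneg _)
          _ = (Real.sqrt x * (x : ℝ) ^ (1 / 6 : ℝ)) * η := by ring
          _ ≤ (6 * C₀ * N) * η := mul_le_mul_of_nonneg_right hlow hη0.le
          _ = _ := by ring
      exact le_of_mul_le_mul_right h8 (by positivity)
    have := avg_compare h2 (not_isSquare hd2 hd3) hr f hinf hL1 hGL x hη0.le hη2 a1 a2 b2 a3 hxs
    linarith
  have h3 := Set.ncard_le_ncard hsub (Finset.finite_toSet _)
  rw [Set.ncard_coe_finset] at h3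
  have h4 := h3.trans (card_union_le E₁ E₂)
  calc _ ≤ ((E₁.card + E₂.card : ℕ) : ℝ) := by exact_mod_cast h4
    _ = (E₁.card : ℝ) + E₂.card := by push_cast; ring
    _ ≤ B * T + B * T := add_le_add hE₁ hE₂
    _ ≤ (2 * B + 3 * Real.sqrt x₁ + 3) * T := by
        have e1 : 0 ≤ Real.sqrt x₁ * T := mul_nonneg (Real.sqrt_nonneg _) hsum0
        linarith

end Pool.Agent.Work.MP_6dc561_nt.BC
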