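import Pool.Agent.Work.MP_6dc561_nt.BC.Split
import Pool.Agent.Work.MP_6dc561_nt.AA.QDefs

/-!
# Points over residue fields of a number field
-/

set_option autoImplicit false

open NumberField IsDedekindDomain Ideal Polynomial
open Pool.Agent.Work.MP_6dc561_nt.AA

namespace Pool.Agent.Work.MP_6dc561_nt.BC

/-- the number of points is invariant under isomorphisms of the base field -/
theorem numPoints_equiv {k k' : Type*} [Field k] [Field k'] (σ : k ≃+* k') (n : ℕ) (c : k)
    (f : k[X]) : numPoints k' n (σ c) (f.map (σ : k →+* k')) = numPoints k n c f := by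
  set τ : AlgebraicClosure k ≃+* AlgebraicClosure k' :=
    IsAlgClosure.equivOfEquiv (AlgebraicClosure k) (AlgebraicClosure k') σ with hτ
  have hτσ : ∀ a : k, τ (algebraMap k (AlgebraicClosure k) a) =
      algebraMap k' (AlgebraicClosure k') (σ a) :=
    fun a => IsAlgClosure.equivOfEquiv_algebraMap (AlgebraicClosure k) (AlgebraicClosure k') σ a
  have hcard : Nat.card k' = Nat.card k := (Nat.card_congr σ.toEquiv).symm
  have hev : ∀ x : AlgebraicClosure k, aeval (τ x) (f.map (σ : k →+* k')) = τ (aeval x f) := by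
    intro x
    have hcomp : (algebraMap k' (AlgebraicClosure k')).comp (σ : k →+* k') =
        (τ : AlgebraicClosure k →+* AlgebraicClosure k').comp
          (algebraMap k (AlgebraicClosure k)) := by
      ext a
      exact (hτσ a).symm
    rw [aeval_def, eval₂_map, hcomp, aeval_def]
    exact (hom_eval₂ f (algebraMap k (AlgebraicClosure k))
      (τ : AlgebraicClosure k →+* AlgebraicClosure k') x).symm
  unfold numPoints
  congr 1
  · have himg : affinePoints k' n (σ c) (f.map (σ : k →+* k')) =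
        (fun P : AlgebraicClosure k × AlgebraicClosure k => (τ P.1, τ P.2)) ''
          affinePoints k n c f := by
      ext P
      simp only [affinePoints, Set.mem_image, Set.mem_ofPred_eq]
      constructor
      · rintro ⟨h1, h2, h3⟩
        refine ⟨(τ.symm P.1, τ.symm P.2), ⟨?_, ?_, ?_⟩, ?_⟩
        · apply τ.injective
          rw [map_pow, τ.apply_symm_apply, ← hcard, h1]
        · apply τ.injective
          rw [map_pow, τ.apply_symm_apply, ← hcard, h2]
        · apply τ.injective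
          rw [map_mul, map_pow, τ.apply_symm_apply, hτσ, h3, ← hev, τ.apply_symm_apply]
        · exact Prod.ext (τ.apply_symm_apply _) (τ.apply_symm_apply _)
      · rintro ⟨Q, ⟨h1, h2, h3⟩, rfl⟩
        refine ⟨?_, ?_, ?_⟩
        · change (τ Q.1) ^ _ = τ Q.1
          rw [← map_pow, hcard, h1]
        · change (τ Q.2) ^ _ = τ Q.2
          rw [← map_pow, hcard, h2]
        · change algebraMap k' _ (σ c) * (τ Q.2) ^ 2 = aeval (τ Q.1) (f.map (σ : k →+* k'))
          rw [← hτσ, ← map_pow, ← map_mul, h3, hev]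
    rw [himg, Set.ncard_image_of_injective]
    intro P Q h
    have h' : (τ P.1, τ P.2) = (τ Q.1, τ Q.2) := h
    rw [Prod.mk.injEq] at h'
    exact Prod.ext (τ.injective h'.1) (τ.injective h'.2)
  · have himg : pointsAtInfinity k' n (σ c) (f.map (σ : k →+* k')) =
        τ '' pointsAtInfinity k n c f := by
      ext y
      simp only [pointsAtInfinity, Set.mem_image, Set.mem_ofPred_eq]
      constructor
      · rintro ⟨h1, h2⟩
        refine ⟨τ.symm y, ⟨?_, ?_⟩, τ.apply_symm_apply _⟩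
        · apply τ.injective
          rw [map_pow, τ.apply_symm_apply, ← hcard, h1]
        · apply τ.injective
          rw [map_mul, map_pow, τ.apply_symm_apply, hτσ, h2, hτσ, coeff_map]
          rfl
      · rintro ⟨z, ⟨h1, h2⟩, rfl⟩
        refine ⟨?_, ?_⟩
        · rw [← map_pow, hcard, h1]
        · rw [← hτσ, ← map_pow, ← map_mul, h2, hτσ, coeff_map]
          rfl
    rw [himg, Set.ncard_image_of_injective]
    exact τ.injective

variable {K : Type*} [Field K] [NumberField K]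

/-- the residue characteristic -/
noncomputable def ch (w : HeightOneSpectrum (𝓞 K)) : ℕ := Nat.minFac (absNorm w.asIdeal)

theorem ch_spec (w : HeightOneSpectrum (𝓞 K)) :
    (ch w).Prime ∧ ((ch w : ℕ) : 𝓞 K) ∈ w.asIdeal ∧
      ∃ n, 0 < n ∧ absNorm w.asIdeal = ch w ^ n := by
  have := w.isMaximal
  obtain ⟨p, n, hn, hmem, hp, hnorm⟩ := exists_prime_and_absNorm_eq_pow w.asIdeal
  have h1 : ch w = p := by
    unfold ch
    rw [hnorm]
    exact hp.pow_minFac hn.ne'
  rw [h1]
  exact ⟨hp, hmem, n, hn, hnorm⟩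

theorem eq_ch {w : HeightOneSpectrum (𝓞 K)} {p : ℕ} (hp : p.Prime)
    (h : ((p : ℕ) : 𝓞 K) ∈ w.asIdeal) : p = ch w := by
  obtain ⟨h1, h2, _⟩ := ch_spec w
  by_contra hne
  have hcop : Nat.Coprime p (ch w) := (Nat.coprime_primes hp h1).2 hne
  have h3 : IsCoprime (p : ℤ) (ch w : ℤ) := Nat.isCoprime_iff_coprime.2 hcop
  obtain ⟨a, b, hab⟩ := h3
  apply w.isPrime.ne_top
  rw [Ideal.eq_top_iff_one]
  have h4 : ((a * p + b * (ch w : ℕ) : ℤ) : 𝓞 K) = 1 := by rw [hab]; simp
  rw [← h4]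
  push_cast
  exact w.asIdeal.add_mem (w.asIdeal.mul_mem_left _ h) (w.asIdeal.mul_mem_left _ h2)

theorem mem_iff_dvd (w : HeightOneSpectrum (𝓞 K)) (a : ℤ) :
    ((a : ℤ) : 𝓞 K) ∈ w.asIdeal ↔ (ch w : ℤ) ∣ a := by
  obtain ⟨h1, h2, _⟩ := ch_spec w
  constructor
  · intro h
    by_contra hnd
    have h3 : IsCoprime (ch w : ℤ) a :=
      (Int.isCoprime_iff_gcd_eq_one).2 ((Int.isCoprime_iff_gcd_eq_one).1
        (((Nat.prime_iff_prime_int.1 h1).coprime_iff_not_dvd).2 hnd))
    obtain ⟨x, y, hxy⟩ := h3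
    apply w.isPrime.ne_top
    rw [Ideal.eq_top_iff_one]
    have h4 : ((x * (ch w : ℕ) + y * a : ℤ) : 𝓞 K) = 1 := by rw [hxy]; simp
    rw [← h4]
    push_cast
    exact w.asIdeal.add_mem (w.asIdeal.mul_mem_left _ h2) (w.asIdeal.mul_mem_left _ h)
  · rintro ⟨b, rfl⟩
    push_cast
    exact w.asIdeal.mul_mem_right _ h2

theorem liesOver (w : HeightOneSpectrum (𝓞 K)) : w.asIdeal.LiesOver (PZ (ch w)) := by
  constructor
  ext a
  rw [mem_PZ, Ideal.under_def, Ideal.mem_comap, algebraMap_int_eq, eq_intCast, mem_iff_dvd]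

theorem charP_quot (w : HeightOneSpectrum (𝓞 K)) : CharP (𝓞 K ⧸ w.asIdeal) (ch w) := by
  have : Nontrivial (𝓞 K ⧸ w.asIdeal) := Ideal.Quotient.nontrivial_iff.2 w.isPrime.ne_top
  refine (CharP.charP_iff_prime_eq_zero (ch_spec w).1).2 ?_
  have h4 := Ideal.Quotient.eq_zero_iff_mem.2 (ch_spec w).2.1
  rwa [map_natCast] at h4

/-- the good primes of the quadratic field -/
theorem good_iff_ch (f : ℤ[X]) (w : HeightOneSpectrum (𝓞 K)) :
    w ∈ goodPrimes (f.map (Int.castRingHom (𝓞 K))) 1 ↔ ch w ∈ goodQ f 1 := by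
  have hnt : Nontrivial (𝓞 K ⧸ w.asIdeal) := Ideal.Quotient.nontrivial_iff.2 w.isPrime.ne_top
  have hfp : Fact (ch w).Prime := ⟨(ch_spec w).1⟩
  have hcp := charP_quot w
  set φ : ZMod (ch w) →+* (𝓞 K ⧸ w.asIdeal) := ZMod.castHom dvd_rfl _ with hφ
  have hmap : (f.map (Int.castRingHom (𝓞 K))).map (Ideal.Quotient.mk w.asIdeal) =
      (f.map (Int.castRingHom (ZMod (ch w)))).map φ := by
    rw [Polynomial.map_map, Polynomial.map_map]
    congr 1
    exact RingHom.ext_int _ _
  have h2 : (2 : 𝓞 K) ∈ w.asIdeal ↔ ch w = 2 := by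
    have h := mem_iff_dvd w 2
    have h3 : (((2 : ℤ)) : 𝓞 K) = 2 := by norm_num
    rw [h3] at h
    rw [h]
    constructor
    · intro h4
      have h5 : ch w ∣ 2 := by exact_mod_cast h4
      exact (Nat.prime_dvd_prime_iff_eq (ch_spec w).1 Nat.prime_two).1 h5
    · intro h4; rw [h4]; norm_num
  have h1 : (1 : 𝓞 K) ∉ w.asIdeal := fun h => w.isPrime.ne_top ((Ideal.eq_top_iff_one _).mpr h)
  have h1' : ¬ ((ch w : ℕ) : ℤ) ∣ 1 := by
    intro h
    have := Int.eq_one_of_dvd_one (Int.natCast_nonneg _) h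
    exact (ch_spec w).1.one_lt.ne' (by exact_mod_cast this)
  unfold goodPrimes goodQ
  simp only [Set.mem_ofPred_eq]
  rw [hmap, Polynomial.separable_map, Polynomial.natDegree_map, h2]
  constructor
  · rintro ⟨a, _, b, c⟩
    exact ⟨(ch_spec w).1, a, h1', b, c⟩
  · rintro ⟨_, a, _, b, c⟩
    exact ⟨a, h1, b, c⟩

/-- primes of degree one have the same point counts as the prime below -/
theorem pointCount_degree_one (f : ℤ[X]) (w : HeightOneSpectrum (𝓞 K))
    (hw : absNorm w.asIdeal = ch w) (n : ℕ) :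
    pointCount (f.map (Int.castRingHom (𝓞 K))) 1 w n = ptCount f 1 (ch w) n := by
  have hnt : Nontrivial (𝓞 K ⧸ w.asIdeal) := Ideal.Quotient.nontrivial_iff.2 w.isPrime.ne_top
  have hfp : Fact (ch w).Prime := ⟨(ch_spec w).1⟩
  have hcp := charP_quot w
  have hfin : Finite (𝓞 K ⧸ w.asIdeal) := w.asIdeal.finiteQuotientOfFreeOfNeBot w.ne_bot
  set φ : ZMod (ch w) →+* (𝓞 K ⧸ w.asIdeal) := ZMod.castHom dvd_rfl _ with hφ
  have hc : Nat.card (ZMod (ch w)) = Nat.card (𝓞 K ⧸ w.asIdeal) := by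
    rw [absNorm_apply, Submodule.cardQuot_apply] at hw
    rw [hw, Nat.card_zmod]
  have hbij : Function.Bijective φ := by
    rw [Nat.bijective_iff_injective_and_card]
    exact ⟨φ.injective, hc⟩
  have hmap : (f.map (Int.castRingHom (𝓞 K))).map (Ideal.Quotient.mk w.asIdeal) =
      (f.map (Int.castRingHom (ZMod (ch w)))).map φ := by
    rw [Polynomial.map_map, Polynomial.map_map]
    congr 1
    exact RingHom.ext_int _ _
  let _ : Field (𝓞 K ⧸ w.asIdeal) := residueField w
  have key := numPoints_equiv (RingEquiv.ofBijective φ hbij) n (1 : ZMod (ch w))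
    (f.map (Int.castRingHom (ZMod (ch w))))
  have e1 : ((RingEquiv.ofBijective φ hbij : ZMod (ch w) ≃+* (𝓞 K ⧸ w.asIdeal)) :
      ZMod (ch w) →+* (𝓞 K ⧸ w.asIdeal)) = φ := by
    ext; rfl
  rw [e1, map_one, ← hmap] at key
  unfold pointCount ptCount
  rw [dif_pos (ch_spec w).1, Int.cast_one, map_one]
  exact key

theorem frob_degree_one (f : ℤ[X]) (w : HeightOneSpectrum (𝓞 K))
    (hw : absNorm w.asIdeal = ch w) :
    frobTrace (f.map (Int.castRingHom (𝓞 K))) 1 w = aQ f 1 (ch w) ∧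
    frobSecond (f.map (Int.castRingHom (𝓞 K))) 1 w = bQ f 1 (ch w) := by
  have h1 := pointCount_degree_one f w hw
  have h2 : frobTrace (f.map (Int.castRingHom (𝓞 K))) 1 w = aQ f 1 (ch w) := by
    unfold frobTrace aQ nrm
    rw [h1, hw]
  refine ⟨h2, ?_⟩
  unfold frobSecond bQ nrm
  rw [h1, h2, hw]

end Pool.Agent.Work.MP_6dc561_nt.BC
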