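import Pool.Agent.Work.MP_6dc561_nt.Defs

/-!
# Rational primes in a quadratic field
-/

set_option autoImplicit false

open NumberField IsDedekindDomain Ideal

namespace Pool.Agent.Work.MP_6dc561_nt.BC

variable {K : Type*} [Field K] [NumberField K]

/-- the ideal `(p)` of `ℤ` -/
def PZ (p : ℕ) : Ideal ℤ := Ideal.span {(p : ℤ)}

theorem mem_PZ {p : ℕ} {a : ℤ} : a ∈ PZ p ↔ (p : ℤ) ∣ a := Ideal.mem_span_singleton

theorem PZ_ne_bot {p : ℕ} (hp : p.Prime) : PZ p ≠ ⊥ := by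
  unfold PZ
  rw [Ne, Ideal.span_singleton_eq_bot]
  exact_mod_cast hp.ne_zero

theorem PZ_prime {p : ℕ} (hp : p.Prime) : (PZ p).IsPrime := by
  unfold PZ
  rw [Ideal.span_singleton_prime (by exact_mod_cast hp.ne_zero)]
  exact Nat.prime_iff_prime_int.1 hp

theorem PZ_maximal {p : ℕ} (hp : p.Prime) : (PZ p).IsMaximal :=
  (PZ_prime hp).isMaximal (PZ_ne_bot hp)

theorem absNorm_PZ (p : ℕ) : absNorm (PZ p) = p := by
  unfold PZ
  rw [Ideal.absNorm_span_singleton]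
  simp

theorem absNorm_over {p : ℕ} (hp : p.Prime) (w : (PZ p).primesOver (𝓞 K)) :
    absNorm w.1 = p ^ (w.1.inertiaDeg ℤ) := by
  have := PZ_maximal hp
  have h := (absNorm_pow_inertiaDeg (PZ p) w.1).symm
  rwa [absNorm_PZ] at h

theorem one_le_e {p : ℕ} (w : (PZ p).primesOver (𝓞 K)) :
    1 ≤ w.1.ramificationIdx ℤ := by
  have := w.1.ramificationIdx_pos ℤ
  omega

theorem one_le_f {p : ℕ} (w : (PZ p).primesOver (𝓞 K)) :
    1 ≤ w.1.inertiaDeg ℤ := by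
  have := w.1.inertiaDeg_pos ℤ
  omega

theorem sum_ef (h2 : Module.finrank ℚ K = 2) {p : ℕ} (hp : p.Prime)
    [Fintype ((PZ p).primesOver (𝓞 K))] :
    ∑ q : (PZ p).primesOver (𝓞 K), q.1.ramificationIdx ℤ * q.1.inertiaDeg ℤ = 2 := by
  have := PZ_maximal hp
  rw [sum_ramification_inertia_eq_finrank, ← h2]
  first
    | exact IsFractionRing.finrank_eq ℤ ℚ (𝓞 K) K
    | exact (IsFractionRing.finrank_eq ℤ ℚ (𝓞 K) K).symm
    | exact NumberField.RingOfIntegers.rank K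

theorem card_le (h2 : Module.finrank ℚ K = 2) {p : ℕ} (hp : p.Prime)
    [Fintype ((PZ p).primesOver (𝓞 K))] :
    Fintype.card ((PZ p).primesOver (𝓞 K)) ≤ 2 := by
  rw [← sum_ef h2 hp, Fintype.card, Finset.card_eq_sum_ones]
  refine Finset.sum_le_sum fun q _ => ?_
  exact Right.one_le_mul (one_le_e q) (one_le_f q)

/-- if there are two distinct primes above `p` then they have norm `p` -/
theorem f_eq_one (h2 : Module.finrank ℚ K = 2) {p : ℕ} (hp : p.Prime)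
    [Fintype ((PZ p).primesOver (𝓞 K))]
    (w₁ w₂ : (PZ p).primesOver (𝓞 K)) (hne : w₁ ≠ w₂) :
    Fintype.card ((PZ p).primesOver (𝓞 K)) = 2 ∧
      ∀ w : (PZ p).primesOver (𝓞 K), w.1.inertiaDeg ℤ = 1 := by
  classical
  have := PZ_maximal hp
  have hcard : Fintype.card ((PZ p).primesOver (𝓞 K)) = 2 := by
    apply le_antisymm (card_le h2 hp)
    exact Fintype.one_lt_card_iff.mpr ⟨w₁, w₂, hne⟩
  refine ⟨hcard, ?_⟩
  have hsum := sum_ef h2 (K := K) hp
  have hge : ∀ w : (PZ p).primesOver (𝓞 K),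
      1 ≤ w.1.ramificationIdx ℤ * w.1.inertiaDeg ℤ :=
    fun w => Right.one_le_mul (one_le_e w) (one_le_f w)
  have hsum1 : ∑ _w : (PZ p).primesOver (𝓞 K), 1 =
      ∑ q : (PZ p).primesOver (𝓞 K), q.1.ramificationIdx ℤ * q.1.inertiaDeg ℤ := by
    rw [hsum, Finset.sum_const, Finset.card_univ, hcard]; rfl
  have heq := (Finset.sum_eq_sum_iff_of_le (fun w _ => hge w)).mp hsum1
  intro w
  exact Nat.eq_one_of_mul_eq_one_left (heq w (Finset.mem_univ _)).symm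

/-- two primes above `p` if the residue symbol is `1` -/
theorem exists_two (e : ℤ) (θ : 𝓞 K) (hθ : θ ^ 2 = algebraMap ℤ (𝓞 K) e)
    (σ : 𝓞 K →ₐ[ℤ] 𝓞 K) (hσ : σ θ = -θ)
    {p : ℕ} (hp : p.Prime) (h2v : p ≠ 2) (hev : ¬ (p : ℤ) ∣ e)
    (t : ℤ) (ht : (p : ℤ) ∣ e - t ^ 2) :
    ∃ w₁ w₂ : (PZ p).primesOver (𝓞 K), w₁ ≠ w₂ := by
  have hmax := PZ_maximal hp
  have htv : t ∉ PZ p := by
    intro h
    rw [mem_PZ] at h
    apply hev
    have h3 : (p : ℤ) ∣ t ^ 2 := Dvd.dvd.pow h two_ne_zero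
    have := dvd_add ht h3
    simpa using this
  obtain ⟨P, hPm, hPo⟩ := exists_maximal_ideal_liesOver_of_isIntegral (S := 𝓞 K) (PZ p)
  have hPp : P.IsPrime := hPm.isPrime
  have hover : ∀ x : ℤ, algebraMap ℤ (𝓞 K) x ∈ P ↔ x ∈ PZ p := by
    intro x
    rw [hPo.over]; rfl
  -- the conjugate prime
  set Q : Ideal (𝓞 K) := P.comap σ.toRingHom with hQ
  have hQp : Q.IsPrime := Ideal.comap_isPrime _ _
  have hQo : Q.LiesOver (PZ p) := by
    constructor
    ext x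
    rw [Ideal.under_def, Ideal.mem_comap, hQ, Ideal.mem_comap]
    have : σ.toRingHom (algebraMap ℤ (𝓞 K) x) = algebraMap ℤ (𝓞 K) x := σ.commutes x
    rw [this, hover]
  refine ⟨⟨P, hPp, hPo⟩, ⟨Q, hQp, hQo⟩, ?_⟩
  intro heq
  have hPQ : P = Q := congrArg (fun z => z.1) heq
  -- P contains θ - t or θ + t
  have hprod : (θ - algebraMap ℤ (𝓞 K) t) * (θ + algebraMap ℤ (𝓞 K) t) ∈ P := by
    have : (θ - algebraMap ℤ (𝓞 K) t) * (θ + algebraMap ℤ (𝓞 K) t) =
        algebraMap ℤ (𝓞 K) (e - t ^ 2) := by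
      rw [map_sub, map_pow, ← hθ]; ring
    rw [this, hover, mem_PZ]
    exact ht
  have hboth : θ - algebraMap ℤ (𝓞 K) t ∈ P ∧ θ + algebraMap ℤ (𝓞 K) t ∈ P := by
    rcases hPp.mem_or_mem hprod with h | h
    · refine ⟨h, ?_⟩
      have h' : -(θ + algebraMap ℤ (𝓞 K) t) ∈ Q := by
        rw [hQ, Ideal.mem_comap]
        have : σ.toRingHom (-(θ + algebraMap ℤ (𝓞 K) t)) = θ - algebraMap ℤ (𝓞 K) t := by
          have h1 : σ.toRingHom θ = -θ := hσ
          have h2 : σ.toRingHom (algebraMap ℤ (𝓞 K) t) = algebraMap ℤ (𝓞 K) t := σ.commutes t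
          rw [map_neg, map_add, h1, h2]; ring
        rw [this]; exact h
      rw [← hPQ] at h'
      simpa using P.neg_mem h'
    · refine ⟨?_, h⟩
      have h' : -(θ - algebraMap ℤ (𝓞 K) t) ∈ Q := by
        rw [hQ, Ideal.mem_comap]
        have : σ.toRingHom (-(θ - algebraMap ℤ (𝓞 K) t)) = θ + algebraMap ℤ (𝓞 K) t := by
          have h1 : σ.toRingHom θ = -θ := hσ
          have h2 : σ.toRingHom (algebraMap ℤ (𝓞 K) t) = algebraMap ℤ (𝓞 K) t := σ.commutes t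
          rw [map_neg, map_sub, h1, h2]; ring
        rw [this]; exact h
      rw [← hPQ] at h'
      simpa using P.neg_mem h'
  have h2t : algebraMap ℤ (𝓞 K) (2 * t) ∈ P := by
    have := P.sub_mem hboth.2 hboth.1
    have h3 : θ + algebraMap ℤ (𝓞 K) t - (θ - algebraMap ℤ (𝓞 K) t) =
        algebraMap ℤ (𝓞 K) (2 * t) := by
      rw [map_mul, map_ofNat]; ring
    rwa [h3] at this
  rw [hover] at h2t
  rcases (PZ_prime hp).mem_or_mem h2t with h | h
  · rw [mem_PZ] at h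
    have h3 : p ∣ 2 := by exact_mod_cast h
    exact h2v ((Nat.prime_dvd_prime_iff_eq hp Nat.prime_two).1 h3)
  · exact htv h

/-- residue degree at least two if the residue symbol is `-1` -/
theorem two_le_f (e : ℤ) (θ : 𝓞 K) (hθ : θ ^ 2 = algebraMap ℤ (𝓞 K) e)
    {p : ℕ} (hp : p.Prime) (hsq : ¬ IsSquare (e : ZMod p))
    (w : (PZ p).primesOver (𝓞 K)) : 2 ≤ w.1.inertiaDeg ℤ := by
  have hmax := PZ_maximal hp
  by_contra hlt
  have h1 : w.1.inertiaDeg ℤ = 1 := by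
    have := one_le_f w
    omega
  have hw1 : w.1.IsPrime := w.2.1
  have hwo : w.1.LiesOver (PZ p) := w.2.2
  have hwne : w.1 ≠ ⊥ := ne_bot_of_mem_primesOver (PZ_ne_bot hp) w.2
  have hcard : absNorm w.1 = p := by rw [absNorm_over hp, h1, pow_one]
  have hfinw : Finite (𝓞 K ⧸ w.1) := w.1.finiteQuotientOfFreeOfNeBot hwne
  have hfp : Fact p.Prime := ⟨hp⟩
  have hc : Nat.card (ZMod p) = Nat.card (𝓞 K ⧸ w.1) := by
    rw [absNorm_apply, Submodule.cardQuot_apply] at hcard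
    rw [hcard, Nat.card_zmod]
  have hchar : (p : 𝓞 K ⧸ w.1) = 0 := by
    have h3 : algebraMap ℤ (𝓞 K) (p : ℤ) ∈ w.1 := by
      have : (p : ℤ) ∈ PZ p := mem_PZ.2 dvd_rfl
      rw [hwo.over] at this
      exact this
    have h4 := Ideal.Quotient.eq_zero_iff_mem.2 h3
    rw [map_natCast, map_natCast] at h4
    exact h4
  have hcp : CharP (𝓞 K ⧸ w.1) p := by
    have : Nontrivial (𝓞 K ⧸ w.1) := Ideal.Quotient.nontrivial_iff.2 hw1.ne_top
    exact (CharP.charP_iff_prime_eq_zero hp).2 hchar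
  set φ : ZMod p →+* (𝓞 K ⧸ w.1) := ZMod.castHom dvd_rfl _ with hφ
  have hinj : Function.Injective φ := by
    have : Nontrivial (𝓞 K ⧸ w.1) := Ideal.Quotient.nontrivial_iff.2 hw1.ne_top
    exact φ.injective
  have hbij : Function.Bijective φ := by
    rw [Nat.bijective_iff_injective_and_card]
    exact ⟨hinj, hc⟩
  obtain ⟨r, hr⟩ := hbij.2 (Ideal.Quotient.mk w.1 θ)
  apply hsq
  refine ⟨r, hinj ?_⟩
  rw [map_mul, hr, map_intCast, ← map_mul, ← sq, hθ]
  rw [algebraMap_int_eq, eq_intCast, map_intCast]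

end Pool.Agent.Work.MP_6dc561_nt.BC
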